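import Pool.Agent.T2H44.PL.Loc

/-!
# Chords with coplanar normals
-/

set_option autoImplicit false

open MeasureTheory Set Filter Topology
open scoped InnerProductSpace ENNReal
open Pool.Agent.H721R2.Quart Pool.Agent.H721R2.Ivrii Pool.Agent.TH746 Pool.Agent.TH318.Iv
open Pool.Agent.T2H44.IV

namespace Pool.Agent.T2H44.PL

theorem line {Z V : Type*} [NormedAddCommGroup Z] [NormedSpace ℝ Z] [NormedAddCommGroup V]
    [NormedSpace ℝ V] {φ : Z → V} {z : Z} (h : DifferentiableAt ℝ φ z) (ζ : Z) :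
    HasDerivAt (fun t : ℝ => φ (z + t • ζ)) (fderiv ℝ φ z ζ) 0 := by
  have h1 : HasDerivAt (fun t : ℝ => z + t • ζ) ζ 0 := by
    have := ((hasDerivAt_id (0 : ℝ)).smul_const ζ).const_add z
    simpa using this
  have h2 : HasFDerivAt φ (fderiv ℝ φ z) (z + (0 : ℝ) • ζ) := by
    rw [zero_smul, add_zero]; exact h.hasFDerivAt
  exact h2.comp_hasDerivAt 0 h1

section
variable {E Z : Type*} [NormedAddCommGroup E] [InnerProductSpace ℝ E]
  [NormedAddCommGroup Z] [NormedSpace ℝ Z] (C : Chn E Z)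

/-- The coefficients. -/
noncomputable def qf (z : Z) : ℝ := 1 - ⟪C.n 0 z, C.e 0 z⟫_ℝ ^ 2
noncomputable def af (z : Z) : ℝ := ⟪C.n 1 z, C.e 0 z⟫_ℝ - ⟪C.n 0 z, C.e 0 z⟫_ℝ * ⟪C.n 1 z, C.n 0 z⟫_ℝ
noncomputable def bf (z : Z) : ℝ := ⟪C.n 1 z, C.n 0 z⟫_ℝ - ⟪C.n 0 z, C.e 0 z⟫_ℝ * ⟪C.n 1 z, C.e 0 z⟫_ℝ
/-- The coplanarity. -/
noncomputable def ff (z : Z) : E := pr (C.e 0 z) (C.n 0 z) (C.n 1 z)

theorem ff_eq (z : Z) : ff C z = qf C z • C.n 1 z - af C z • C.e 0 z - bf C z • C.n 0 z := rfl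

variable {C}

theorem ff_diff (hN : 1 < C.N) {z : Z} (hz : z ∈ C.U) : DifferentiableAt ℝ (ff C) z := by
  have he := C.de 0 (Nat.zero_le _) z hz
  have hn := C.dn 0 (Nat.zero_le _) z hz
  have hν := C.dn 1 hN.le z hz
  unfold ff pr
  exact ((((hn.inner ℝ he).pow 2).const_sub 1).smul hν).sub
    (((hν.inner ℝ he).sub ((hn.inner ℝ he).mul (hν.inner ℝ hn))).smul he) |>.sub
    (((hν.inner ℝ hn).sub ((hn.inner ℝ he).mul (hν.inner ℝ he))).smul hn)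

theorem x1_deriv (hN : 1 < C.N) {z : Z} (hz : z ∈ C.U) (ζ : Z) :
    fderiv ℝ (C.x 1) z ζ = fderiv ℝ (C.x 0) z ζ + fderiv ℝ (C.L 0) z ζ • C.e 0 z +
      C.L 0 z • fderiv ℝ (C.e 0) z ζ := by
  have h0 : 0 < C.N := by omega
  have h1 := line (C.dx 1 hN.le z hz) ζ
  have h2 := line (C.dx 0 (Nat.zero_le _) z hz) ζ
  have h3 := line (C.dL 0 h0 z hz) ζ
  have h4 := line (C.de 0 (Nat.zero_le _) z hz) ζ
  have h5 := h2.add (h3.smul h4)
  have h6 : (fun t : ℝ => C.x 1 (z + t • ζ)) = (fun t : ℝ => C.x 0 (z + t • ζ)) +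
      (fun t : ℝ => C.L 0 (z + t • ζ)) • fun t : ℝ => C.e 0 (z + t • ζ) := by
    funext t; exact C.step 0 h0 _
  rw [h6] at h1
  have h7 := h1.unique h5
  rw [h7, zero_smul, add_zero]
  abel

/-- The derivatives of all the coefficients. -/
theorem coeff (hN : 1 < C.N) {z : Z} (hz : z ∈ C.U) (ζ : Z) : ∃ q' a' b' : ℝ,
    HasDerivAt (fun t : ℝ => qf C (z + t • ζ)) q' 0 ∧
    HasDerivAt (fun t : ℝ => af C (z + t • ζ)) a' 0 ∧
    HasDerivAt (fun t : ℝ => bf C (z + t • ζ)) b' 0 ∧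
    fderiv ℝ (ff C) z ζ = q' • C.n 1 z + qf C z • fderiv ℝ (C.n 1) z ζ -
      (a' • C.e 0 z + af C z • fderiv ℝ (C.e 0) z ζ) -
      (b' • C.n 0 z + bf C z • fderiv ℝ (C.n 0) z ζ) ∧
    ∀ w, ⟪w, C.e 0 z⟫_ℝ = 0 → ⟪w, C.n 0 z⟫_ℝ = 0 → ⟪w, fderiv ℝ (C.e 0) z ζ⟫_ℝ = 0 →
      ⟪w, fderiv ℝ (C.n 0) z ζ⟫_ℝ = 0 →
      HasDerivAt (fun t : ℝ => pr (C.e 0 (z + t • ζ)) (C.n 0 (z + t • ζ)) w) (q' • w) 0 := by
  have he := line (C.de 0 (Nat.zero_le _) z hz) ζ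
  have hn := line (C.dn 0 (Nat.zero_le _) z hz) ζ
  have hν := line (C.dn 1 hN.le z hz) ζ
  obtain ⟨h1, h2, h3, h4⟩ := pr_deriv he hn hν rfl rfl rfl
  simp only [zero_smul, add_zero] at h1 h2 h3 h4
  refine ⟨_, _, _, h3, h1, h2, ?_, fun w hwe hwn h5 h6 => ?_⟩
  · have h5 := (line (ff_diff hN hz) ζ).unique h4
    rw [h5]
    unfold qf af bf
    module
  · obtain ⟨-, -, -, h8⟩ := pr_deriv he hn (hasDerivAt_const (0 : ℝ) w) rfl rfl rfl
    simp only [zero_smul, add_zero, hwe, hwn, h5, h6, inner_zero_left, mul_zero, sub_zero,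
      smul_zero, zero_add] at h8
    exact h8

/-- The first order relations. -/
theorem key_first (hN : 1 < C.N) {z : Z} (hz : z ∈ C.U) (hq : qf C z ≠ 0) (hf0 : ff C z = 0)
    (hf1 : ∀ ζ, fderiv ℝ (ff C) z ζ = 0) {w : E} (hwe : ⟪w, C.e 0 z⟫_ℝ = 0)
    (hwn : ⟪w, C.n 0 z⟫_ℝ = 0) :
    (qf C z * C.L 0 z) • C.S 1 z w = -(af C z • w) ∧
    (bf C z * C.L 0 z) • C.S 0 z w = -(af C z • w) ∧ (w ≠ 0 → bf C z ≠ 0) := by
  have h0 : 0 < C.N := by omega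
  have hfe : qf C z • C.n 1 z = af C z • C.e 0 z + bf C z • C.n 0 z := by
    rw [ff_eq] at hf0
    rw [← sub_eq_zero, ← hf0]; abel
  have hνe : ⟪C.n 1 z, C.e 0 z⟫_ℝ ≠ 0 := by
    intro h
    apply C.tr 1 hN z hz
    rw [C.refl 0 h0 z]
    unfold rf
    rw [inner_sub_right, inner_smul_right, h]
    simp
  refine first (S0 := C.S 0 z) (S1 := C.S 1 z) (C.ee 0 h0 z hz) (C.nn 0 h0 z hz) (C.nn 1 hN z hz)
    (C.Lpos 0 h0 z hz) hq hνe hfe (C.sym 0 h0 z hz) (C.sym 1 hN z hz) (C.Sn 0 h0 z hz)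
    (C.Sn 1 hN z hz) (fun Y δ hY hδ => ?_) hwe hwn
  obtain ⟨ζ, hζ1, hζ2⟩ := C.surj z hz Y δ hY hδ
  refine ⟨fderiv ℝ (C.L 0) z ζ, ?_, fun w' hw'e hw'n => ?_⟩
  · have := C.tan 1 hN z hz ζ
    rwa [x1_deriv hN hz, hζ1, hζ2] at this
  · obtain ⟨q', a', b', -, -, -, h4, -⟩ := coeff hN hz ζ
    rw [hf1, C.njac 1 hN z hz, x1_deriv hN hz, C.njac 0 h0 z hz, hζ1, hζ2] at h4
    have hw'ν : ⟪C.n 1 z, w'⟫_ℝ = 0 := by
      have h1 : ⟪qf C z • C.n 1 z, w'⟫_ℝ = 0 := by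
        rw [hfe, inner_add_left, real_inner_smul_left, real_inner_smul_left,
          real_inner_comm w' (C.e 0 z), real_inner_comm w' (C.n 0 z), hw'e, hw'n]
        ring
      rw [real_inner_smul_left] at h1
      exact (mul_eq_zero.1 h1).resolve_left hq
    have h5 := congrArg (fun v => ⟪v, w'⟫_ℝ) h4
    simp only [inner_sub_left, inner_add_left, real_inner_smul_left, inner_neg_left,
      inner_zero_left, hw'ν, real_inner_comm w' (C.e 0 z), real_inner_comm w' (C.n 0 z), hw'e,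
      hw'n, smul_neg] at h5
    linarith

variable (C) in
/-- The second order relations. -/
noncomputable def gf (w : E) (z : Z) : E × E :=
  ((qf C z * C.L 0 z) • C.S 1 z (pr (C.e 0 z) (C.n 0 z) w) +
    af C z • pr (C.e 0 z) (C.n 0 z) w,
   (bf C z * C.L 0 z) • C.S 0 z (pr (C.e 0 z) (C.n 0 z) w) +
    af C z • pr (C.e 0 z) (C.n 0 z) w)

theorem gf_add (w w' : E) (z : Z) : gf C (w + w') z = gf C w z + gf C w' z := by
  have h1 : pr (C.e 0 z) (C.n 0 z) (w + w') = pr (C.e 0 z) (C.n 0 z) w +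
      pr (C.e 0 z) (C.n 0 z) w' := by
    unfold pr
    rw [inner_add_left, inner_add_left]
    module
  unfold gf
  rw [h1, map_add, map_add]
  refine Prod.ext ?_ ?_
  · simp only [Prod.fst_add]; module
  · simp only [Prod.snd_add]; module

theorem gf_smul (c : ℝ) (w : E) (z : Z) : gf C (c • w) z = c • gf C w z := by
  have h1 : pr (C.e 0 z) (C.n 0 z) (c • w) = c • pr (C.e 0 z) (C.n 0 z) w := by
    unfold pr
    rw [real_inner_smul_left, real_inner_smul_left]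
    module
  unfold gf
  rw [h1, map_smul, map_smul]
  refine Prod.ext ?_ ?_
  · simp only [Prod.smul_fst]; module
  · simp only [Prod.smul_snd]; module

theorem gf_zero (hN : 1 < C.N) {z : Z} (hz : z ∈ C.U) (hq : qf C z ≠ 0) (hf0 : ff C z = 0)
    (hf1 : ∀ ζ, fderiv ℝ (ff C) z ζ = 0) (w : E) : gf C w z = 0 := by
  have h0 : 0 < C.N := by omega
  obtain ⟨h1, h2, -⟩ := key_first hN hz hq hf0 hf1 (pr_e (C.ee 0 h0 z hz) w)
    (pr_n (C.nn 0 h0 z hz) w)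
  unfold gf
  rw [h1, h2, neg_add_cancel]
  rfl

theorem gf_diff (hN : 1 < C.N) {z : Z} (hz : z ∈ C.U) (w : E) : DifferentiableAt ℝ (gf C w) z := by
  have h0 : 0 < C.N := by omega
  have he := C.de 0 (Nat.zero_le _) z hz
  have hn := C.dn 0 (Nat.zero_le _) z hz
  have hν := C.dn 1 hN.le z hz
  have hL := C.dL 0 h0 z hz
  have hS0 := C.dS 0 h0 z hz
  have hS1 := C.dS 1 hN z hz
  have hc := hn.inner ℝ he
  have hq : DifferentiableAt ℝ (qf C) z := by unfold qf; exact (hc.pow 2).const_sub 1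
  have ha : DifferentiableAt ℝ (af C) z := by
    unfold af; exact (hν.inner ℝ he).sub (hc.mul (hν.inner ℝ hn))
  have hb : DifferentiableAt ℝ (bf C) z := by
    unfold bf; exact (hν.inner ℝ hn).sub (hc.mul (hν.inner ℝ he))
  have hp : DifferentiableAt ℝ (fun z => pr (C.e 0 z) (C.n 0 z) w) z := by
    unfold pr
    exact ((((hn.inner ℝ he).pow 2).const_sub 1).smul (differentiableAt_const w)).sub
      ((((differentiableAt_const w).inner ℝ he).sub ((hn.inner ℝ he).mul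
        ((differentiableAt_const w).inner ℝ hn))).smul he) |>.sub
      ((((differentiableAt_const w).inner ℝ hn).sub ((hn.inner ℝ he).mul
        ((differentiableAt_const w).inner ℝ he))).smul hn)
  unfold gf
  exact (((hq.mul hL).smul (hS1.clm_apply hp)).add (ha.smul hp)).prodMk
    (((hb.mul hL).smul (hS0.clm_apply hp)).add (ha.smul hp))

/-- The derivatives of the second order relations. -/
theorem gf_deriv (hN : 1 < C.N) {z : Z} (hz : z ∈ C.U) (hg : ∀ w ζ, fderiv ℝ (gf C w) z ζ = 0)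
    (ζ : Z) {q' a' b' : ℝ} (hq' : HasDerivAt (fun t : ℝ => qf C (z + t • ζ)) q' 0)
    (ha' : HasDerivAt (fun t : ℝ => af C (z + t • ζ)) a' 0)
    (hb' : HasDerivAt (fun t : ℝ => bf C (z + t • ζ)) b' 0)
    {w : E} (hwe : ⟪w, C.e 0 z⟫_ℝ = 0) (hwn : ⟪w, C.n 0 z⟫_ℝ = 0)
    (hw : HasDerivAt (fun t : ℝ => pr (C.e 0 (z + t • ζ)) (C.n 0 (z + t • ζ)) w) (q' • w) 0) :
    (qf C z * C.L 0 z) • (fderiv ℝ (C.S 1) z ζ (qf C z • w) + C.S 1 z (q' • w)) +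
      (q' * C.L 0 z + qf C z * fderiv ℝ (C.L 0) z ζ) • C.S 1 z (qf C z • w) +
      (af C z • (q' • w) + a' • (qf C z • w)) = 0 ∧
    (bf C z * C.L 0 z) • (fderiv ℝ (C.S 0) z ζ (qf C z • w) + C.S 0 z (q' • w)) +
      (b' * C.L 0 z + bf C z * fderiv ℝ (C.L 0) z ζ) • C.S 0 z (qf C z • w) +
      (af C z • (q' • w) + a' • (qf C z • w)) = 0 := by
  have h0 : 0 < C.N := by omega
  have hL := line (C.dL 0 h0 z hz) ζ
  have hS0 := line (C.dS 0 h0 z hz) ζ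
  have hS1 := line (C.dS 1 hN z hz) ζ
  have hG := line (gf_diff hN hz w) ζ
  rw [hg] at hG
  have h1 := (((hq'.mul hL).smul (hS1.clm_apply hw)).add (ha'.smul hw)).prodMk
    (((hb'.mul hL).smul (hS0.clm_apply hw)).add (ha'.smul hw))
  have h2 := hG.unique h1
  simp only [Pi.mul_apply, zero_smul, add_zero, pr_w hwe hwn] at h2
  have h3 := congrArg Prod.fst h2
  have h4 := congrArg Prod.snd h2
  exact ⟨h3.symm, h4.symm⟩

theorem umb (hN : 1 < C.N) {z : Z} (hz : z ∈ C.U) (hq : qf C z ≠ 0) (hf0 : ff C z = 0)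
    (hf1 : ∀ ζ, fderiv ℝ (ff C) z ζ = 0) (hg : ∀ w ζ, fderiv ℝ (gf C w) z ζ = 0)
    {w0 : E} (hw0 : w0 ≠ 0) (hw0e : ⟪w0, C.e 0 z⟫_ℝ = 0) (hw0n : ⟪w0, C.n 0 z⟫_ℝ = 0) :
    (∃ h : ℝ, ∀ y, ⟪C.n 0 z, y⟫_ℝ = 0 → C.S 0 z y = h • y) ∧
    (∃ h : ℝ, ∀ y, ⟪C.n 1 z, y⟫_ℝ = 0 → C.S 1 z y = h • y) := by
  have h0 : 0 < C.N := by omega
  obtain ⟨e, he⟩ : ∃ e, e = C.e 0 z := ⟨_, rfl⟩
  obtain ⟨n, hn⟩ : ∃ n, n = C.n 0 z := ⟨_, rfl⟩
  obtain ⟨L, hL⟩ : ∃ L, L = C.L 0 z := ⟨_, rfl⟩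
  obtain ⟨q, hqd⟩ : ∃ q, q = qf C z := ⟨_, rfl⟩
  obtain ⟨a, had⟩ : ∃ a, a = af C z := ⟨_, rfl⟩
  obtain ⟨b, hbd⟩ : ∃ b, b = bf C z := ⟨_, rfl⟩
  have hc : ⟪n, e⟫_ℝ ≠ 0 := by rw [hn, he]; exact C.tr 0 h0 z hz
  have ee : ⟪e, e⟫_ℝ = 1 := by rw [he]; exact C.ee 0 h0 z hz
  have nn : ⟪n, n⟫_ℝ = 1 := by rw [hn]; exact C.nn 0 h0 z hz
  have hLp : 0 < L := by rw [hL]; exact C.Lpos 0 h0 z hz
  have hb : bf C z ≠ 0 := (key_first hN hz hq hf0 hf1 hw0e hw0n).2.2 hw0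
  have hqd2 : q = 1 - ⟪n, e⟫_ℝ ^ 2 := by rw [hqd, hn, he]; rfl
  have hfe : q • C.n 1 z = a • e + b • n := by
    rw [ff_eq] at hf0
    rw [← sub_eq_zero, ← hf0, hqd, had, hbd, he, hn]; abel
  have hνe : ⟪C.n 1 z, e⟫_ℝ ≠ 0 := by
    intro h
    apply C.tr 1 hN z hz
    rw [C.refl 0 h0 z, ← he]
    unfold rf
    rw [inner_sub_right, inner_smul_right, h]
    simp
  have hk := fun w (hwe : ⟪w, e⟫_ℝ = 0) (hwn : ⟪w, n⟫_ℝ = 0) =>
    key_first hN hz hq hf0 hf1 (w := w) (by rw [← he]; exact hwe) (by rw [← hn]; exact hwn)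
  rw [← hqd, ← had, ← hbd, ← hL] at hk
  rw [← hqd] at hq
  rw [← hbd] at hb
  have hδ : ⟪e, n - ⟪n, e⟫_ℝ • e⟫_ℝ = 0 := by
    rw [inner_sub_right, inner_smul_right, ee, real_inner_comm n e]; ring
  have hwδ : ∀ w, ⟪w, e⟫_ℝ = 0 → ⟪w, n⟫_ℝ = 0 → ⟪w, n - ⟪n, e⟫_ℝ • e⟫_ℝ = 0 := by
    intro w hwe hwn
    rw [inner_sub_right, inner_smul_right, hwe, hwn]; ring
  constructor
  · obtain ⟨X, hX⟩ : ∃ X, X = (L / ⟪n, e⟫_ℝ) • (e - ⟪n, e⟫_ℝ • n) := ⟨_, rfl⟩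
    have hXn : ⟪n, X⟫_ℝ = 0 := by
      rw [hX, inner_smul_right, inner_sub_right, inner_smul_right, nn]; ring
    obtain ⟨ζ, hζ1, hζ2⟩ := C.surj z hz X (n - ⟪n, e⟫_ℝ • e) (by rw [← hn]; exact hXn)
      (by rw [← he]; exact hδ)
    obtain ⟨q', a', b', h1, h2, h3, h4, h5⟩ := coeff hN hz ζ
    have hx1 := x1_deriv hN hz ζ
    rw [hζ1, hζ2, ← hL, ← he] at hx1
    obtain ⟨L', hL'⟩ : ∃ L', L' = fderiv ℝ (C.L 0) z ζ := ⟨_, rfl⟩
    rw [← hL'] at hx1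
    have hx1' : fderiv ℝ (C.x 1) z ζ = (L / ⟪n, e⟫_ℝ + L' - L * ⟪n, e⟫_ℝ) • e := by
      have h6 : (L / ⟪n, e⟫_ℝ) * ⟪n, e⟫_ℝ = L := div_mul_cancel₀ _ hc
      rw [hx1, hX, smul_sub, smul_smul, h6]
      module
    have hx10 : fderiv ℝ (C.x 1) z ζ = 0 := by
      have h6 := C.tan 1 hN z hz ζ
      rw [hx1', inner_smul_right] at h6
      rw [hx1', (mul_eq_zero.1 h6).resolve_right hνe, zero_smul]
    have hS1 := C.Sjac 1 hN z hz ζ hx10
    have hν' : fderiv ℝ (C.n 1) z ζ = 0 := by rw [C.njac 1 hN z hz, hx10, map_zero, neg_zero]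
    have hn' : fderiv ℝ (C.n 0) z ζ = -C.S 0 z X := by rw [C.njac 0 h0 z hz, hζ1]
    rw [hf1, hn', hζ2, ← he, ← hn, ← hqd, ← had, ← hbd] at h4
    have hwX : ∀ w, ⟪w, e⟫_ℝ = 0 → ⟪w, n⟫_ℝ = 0 → ⟪w, fderiv ℝ (C.n 0) z ζ⟫_ℝ = 0 := by
      intro w hwe hwn
      rw [hn', inner_neg_right, ← C.sym 0 h0 z hz]
      have h6 := (hk w hwe hwn).2.1
      have h7 : ⟪(b * L) • C.S 0 z w, X⟫_ℝ = 0 := by
        rw [h6, inner_neg_left, real_inner_smul_left, hX, inner_smul_right, inner_sub_right,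
          inner_smul_right, hwe, hwn]
        ring
      rw [real_inner_smul_left] at h7
      rw [(mul_eq_zero.1 h7).resolve_left (mul_ne_zero hb hLp.ne'), neg_zero]
    have h6 := (gf_deriv hN hz hg ζ h1 h2 h3 hw0e hw0n (h5 w0 hw0e hw0n (by
      rw [hζ2]; exact hwδ _ (by rw [he]; exact hw0e) (by rw [hn]; exact hw0n)) (hwX _
        (by rw [he]; exact hw0e) (by rw [hn]; exact hw0n)))).1
    have h7 := (hk w0 (by rw [he]; exact hw0e) (by rw [hn]; exact hw0n)).1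
    rw [hS1, ContinuousLinearMap.zero_apply, zero_add, map_smul, map_smul, ← hqd, ← hL, ← hL',
      ← had] at h6
    have ha' : a' * q * L = a * (L' * q + L * q') := by
      have h8 : (a' * q * L - a * (L' * q + L * q')) • w0 = 0 := by
        have h9 : (a' * q * L - a * (L' * q + L * q')) • w0 =
            L • ((q * L) • q' • C.S 1 z w0 + (q' * L + q * L') • q • C.S 1 z w0 +
              (a • q' • w0 + a' • q • w0)) -
            (L * q' + (q' * L + q * L')) • ((q * L) • C.S 1 z w0 - -(a • w0)) := by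
          module
        rw [h9, h6, h7]
        simp
      linarith [(smul_eq_zero.1 h8).resolve_right hw0]
    have hfin := fun y hy => second0 (ν' := fderiv ℝ (C.n 1) z ζ) (S0 := C.S 0 z) (L' := L')
      (a' := a') (b' := b') (q' := q') ee nn hLp hqd2 hq hc hb hfe (fun v w => map_add _ v w)
      (fun t v => map_smul _ t v) (C.sym 0 h0 z hz) (by rw [hn]; exact C.Sn 0 h0 z hz)
      (fun w hwe hwn => (hk w hwe hwn).2.1) hν' hX (by rw [← hx1]; exact hx10)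
      (by
        rw [← sub_eq_zero]
        refine Eq.trans ?_ h4.symm
        rw [smul_neg]
        abel) ha' (y := y) hy
    refine ⟨-(a / (b * L)), fun y hy => ?_⟩
    have h8 := hfin y (by rw [hn]; exact hy)
    have h9 : (b * L) ≠ 0 := mul_ne_zero hb hLp.ne'
    apply smul_right_injective E h9
    change (b * L) • C.S 0 z y = (b * L) • (-(a / (b * L)) • y)
    rw [h8, smul_smul, mul_neg, mul_div_cancel₀ _ h9, neg_smul]
  · obtain ⟨ζ, hζ1, hζ2⟩ := C.surj z hz 0 (n - ⟪n, e⟫_ℝ • e) (inner_zero_right _)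
      (by rw [← he]; exact hδ)
    obtain ⟨q', a', b', h1, h2, h3, h4, h5⟩ := coeff hN hz ζ
    have hx1 := x1_deriv hN hz ζ
    rw [hζ1, hζ2, ← hL, ← he, zero_add] at hx1
    obtain ⟨L', hL'⟩ : ∃ L', L' = fderiv ℝ (C.L 0) z ζ := ⟨_, rfl⟩
    rw [← hL'] at hx1
    obtain ⟨X, hX⟩ : ∃ X, X = L' • e + L • (n - ⟪n, e⟫_ℝ • e) := ⟨_, rfl⟩
    rw [← hX] at hx1
    have hXν : ⟪C.n 1 z, X⟫_ℝ = 0 := by rw [← hx1]; exact C.tan 1 hN z hz ζ
    have hS0 := C.Sjac 0 h0 z hz ζ hζ1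
    have hν' : fderiv ℝ (C.n 1) z ζ = -C.S 1 z X := by rw [C.njac 1 hN z hz, hx1]
    have hn' : fderiv ℝ (C.n 0) z ζ = 0 := by rw [C.njac 0 h0 z hz, hζ1, map_zero, neg_zero]
    rw [hf1, hn', hζ2, ← he, ← hn, ← hqd, ← had, ← hbd, smul_zero, add_zero] at h4
    have h6 := (gf_deriv hN hz hg ζ h1 h2 h3 hw0e hw0n (h5 w0 hw0e hw0n (by
      rw [hζ2]; exact hwδ _ (by rw [he]; exact hw0e) (by rw [hn]; exact hw0n)) (by
        rw [hn', inner_zero_right]))).2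
    have h7 := (hk w0 (by rw [he]; exact hw0e) (by rw [hn]; exact hw0n)).2.1
    rw [hS0, ContinuousLinearMap.zero_apply, zero_add, map_smul, map_smul, ← hqd, ← hL, ← hL',
      ← had, ← hbd] at h6
    have ha' : a' * b * L = a * (L' * b + L * b') := by
      have h8 : (q * (a' * b * L - a * (L' * b + L * b'))) • w0 = 0 := by
        have h9 : (q * (a' * b * L - a * (L' * b + L * b'))) • w0 =
            (b * L) • ((b * L) • q' • C.S 0 z w0 + (b' * L + b * L') • q • C.S 0 z w0 +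
              (a • q' • w0 + a' • q • w0)) -
            (b * L * q' + (b' * L + b * L') * q) • ((b * L) • C.S 0 z w0 - -(a • w0)) := by
          module
        rw [h9, h6, h7]
        simp
      have h10 := (mul_eq_zero.1 ((smul_eq_zero.1 h8).resolve_right hw0)).resolve_left hq
      linarith
    have hfin := fun y hy => second1 (ν' := fderiv ℝ (C.n 1) z ζ) (S1 := C.S 1 z) (L' := L')
      (a' := a') (b' := b') (q' := q') ee nn (C.nn 1 hN z hz) hLp hqd2 hq hb hfe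
      (fun v w => map_add _ v w)
      (fun t v => map_smul _ t v) (C.sym 1 hN z hz) (C.Sn 1 hN z hz)
      (fun w hwe hwn => (hk w hwe hwn).1) hX hXν hν'
      (by
        rw [← sub_eq_zero]
        refine Eq.trans ?_ h4.symm
        abel) ha' (y := y) hy
    refine ⟨-(a / (q * L)), fun y hy => ?_⟩
    have h8 := hfin y hy
    have h9 : (q * L) ≠ 0 := mul_ne_zero hq hLp.ne'
    apply smul_right_injective E h9
    change (q * L) • C.S 1 z y = (q * L) • (-(a / (q * L)) • y)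
    rw [h8, smul_smul, mul_neg, mul_div_cancel₀ _ h9, neg_smul]

end

end Pool.Agent.T2H44.PL
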