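import Pool.Agent.TH746.OB.Main2

/-!
# Definitions: coplanar sides of a billiard trajectory
-/

set_option autoImplicit false

open Set Filter Topology
open scoped InnerProductSpace
open Pool.Agent.H721R2.Ivrii Pool.Agent.TH746.UM

namespace Pool.Agent.T2H44.PL

variable {E : Type*} [NormedAddCommGroup E] [InnerProductSpace ℝ E] [CompleteSpace E]

/-- The three consecutive directions `u j`, `u (j + 1)`, `u (j + 2)` are linearly dependent: the side
`j + 1` of the trajectory (from the bounce `j + 1` to the bounce `j + 2`) lies in one plane with the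
previous and the next side. -/
def Cop (u : ℕ → E) (j : ℕ) : Prop := ¬ LinearIndependent ℝ ![u j, u (j + 1), u (j + 2)]

/-- The bounce `k` of a trajectory with `n` bounces in a period is an end of a coplanar side. -/
def CopEnd (n : ℕ) (u : ℕ → E) (k : ℕ) : Prop :=
  ∃ j, Cop u j ∧ ((j + 1) % n = k ∨ (j + 2) % n = k)

/-- The phase points `(q, v)` which start a billiard trajectory that is periodic modulo some isometry
`g ∈ Γ`, with any number `n` of bounces `p 0, …, p (n - 1)` in a period, all of them at points where the
boundary is of class `C^∞`, such that at most one of these bounces is neither at an umbilic point nor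
an end of a coplanar side. -/
def PerCop (Γ : Set (E ≃ᵃⁱ[ℝ] E)) (Ω : Set E) : Set (E × E) :=
  {z | ∃ g ∈ Γ, ∃ (n : ℕ) (p u : ℕ → E), OrbitMod Ω g n p u ∧ (p 0, u 0) = z ∧
    (∀ k, SmoothAt Ω (p k)) ∧
    {k | k < n ∧ ¬ Umbilic Ω (p k) ∧ ¬ CopEnd n u k}.ncard ≤ 1}

end Pool.Agent.T2H44.PL
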