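import Pool.Agent.T2H44.IV.Main2

/-!
# Two mirrors with coplanar normals are umbilic
-/

set_option autoImplicit false

open MeasureTheory Set Filter Topology
open scoped InnerProductSpace ENNReal
open Pool.Agent.H721R2.Quart Pool.Agent.H721R2.Ivrii Pool.Agent.TH746 Pool.Agent.TH318.Iv
open Pool.Agent.T2H44.IV

namespace Pool.Agent.T2H44.PL

section P
variable {E : Type*} [NormedAddCommGroup E] [InnerProductSpace ℝ E]

/-- `1 - c ^ 2` times the projection to the complement of the plane spanned by `e` and `n`. -/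
noncomputable def pr (e n v : E) : E :=
  (1 - ⟪n, e⟫_ℝ ^ 2) • v - (⟪v, e⟫_ℝ - ⟪n, e⟫_ℝ * ⟪v, n⟫_ℝ) • e -
    (⟪v, n⟫_ℝ - ⟪n, e⟫_ℝ * ⟪v, e⟫_ℝ) • n

theorem pr_e {e n : E} (he : ⟪e, e⟫_ℝ = 1) (v : E) : ⟪pr e n v, e⟫_ℝ = 0 := by
  unfold pr
  rw [inner_sub_left, inner_sub_left, real_inner_smul_left, real_inner_smul_left,
    real_inner_smul_left, he]
  ring

theorem pr_n {e n : E} (hn : ⟪n, n⟫_ℝ = 1) (v : E) : ⟪pr e n v, n⟫_ℝ = 0 := by
  unfold pr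
  rw [inner_sub_left, inner_sub_left, real_inner_smul_left, real_inner_smul_left,
    real_inner_smul_left, hn, real_inner_comm n e]
  ring

theorem pr_w {e n w : E} (he : ⟪w, e⟫_ℝ = 0) (hn : ⟪w, n⟫_ℝ = 0) :
    pr e n w = (1 - ⟪n, e⟫_ℝ ^ 2) • w := by
  unfold pr
  rw [he, hn]
  simp

/-- The derivative of the projection. -/
theorem pr_deriv {e n v : ℝ → E} {e' n' v' : E} (he : HasDerivAt e e' 0) (hn : HasDerivAt n n' 0)
    (hv : HasDerivAt v v' 0) {c' a' b' : ℝ}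
    (hc : c' = ⟪n 0, e'⟫_ℝ + ⟪n', e 0⟫_ℝ)
    (ha : a' = (⟪v 0, e'⟫_ℝ + ⟪v', e 0⟫_ℝ) - (c' * ⟪v 0, n 0⟫_ℝ + ⟪n 0, e 0⟫_ℝ *
      (⟪v 0, n'⟫_ℝ + ⟪v', n 0⟫_ℝ)))
    (hb : b' = (⟪v 0, n'⟫_ℝ + ⟪v', n 0⟫_ℝ) - (c' * ⟪v 0, e 0⟫_ℝ + ⟪n 0, e 0⟫_ℝ *
      (⟪v 0, e'⟫_ℝ + ⟪v', e 0⟫_ℝ))) :
    HasDerivAt (fun t => ⟪v t, e t⟫_ℝ - ⟪n t, e t⟫_ℝ * ⟪v t, n t⟫_ℝ) a' 0 ∧
    HasDerivAt (fun t => ⟪v t, n t⟫_ℝ - ⟪n t, e t⟫_ℝ * ⟪v t, e t⟫_ℝ) b' 0 ∧
    HasDerivAt (fun t => 1 - ⟪n t, e t⟫_ℝ ^ 2) (-(2 * ⟪n 0, e 0⟫_ℝ * c')) 0 ∧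
    HasDerivAt (fun t => pr (e t) (n t) (v t))
      ((1 - ⟪n 0, e 0⟫_ℝ ^ 2) • v' + (-(2 * ⟪n 0, e 0⟫_ℝ * c')) • v 0 -
        ((⟪v 0, e 0⟫_ℝ - ⟪n 0, e 0⟫_ℝ * ⟪v 0, n 0⟫_ℝ) • e' + a' • e 0) -
        ((⟪v 0, n 0⟫_ℝ - ⟪n 0, e 0⟫_ℝ * ⟪v 0, e 0⟫_ℝ) • n' + b' • n 0)) 0 := by
  have h1 : HasDerivAt (fun t => ⟪n t, e t⟫_ℝ) c' 0 := by rw [hc]; exact hn.inner ℝ he
  have h2 : HasDerivAt (fun t => ⟪v t, e t⟫_ℝ) (⟪v 0, e'⟫_ℝ + ⟪v', e 0⟫_ℝ) 0 := hv.inner ℝ he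
  have h3 : HasDerivAt (fun t => ⟪v t, n t⟫_ℝ) (⟪v 0, n'⟫_ℝ + ⟪v', n 0⟫_ℝ) 0 := hv.inner ℝ hn
  have h4 : HasDerivAt (fun t => 1 - ⟪n t, e t⟫_ℝ ^ 2) (-(2 * ⟪n 0, e 0⟫_ℝ * c')) 0 := by
    have := (h1.pow 2).const_sub 1
    refine this.congr_deriv ?_
    simp
  have h5 : HasDerivAt (fun t => ⟪v t, e t⟫_ℝ - ⟪n t, e t⟫_ℝ * ⟪v t, n t⟫_ℝ) a' 0 := by
    rw [ha]; exact h2.sub (h1.mul h3)
  have h6 : HasDerivAt (fun t => ⟪v t, n t⟫_ℝ - ⟪n t, e t⟫_ℝ * ⟪v t, e t⟫_ℝ) b' 0 := by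
    rw [hb]; exact h3.sub (h1.mul h2)
  exact ⟨h5, h6, h4, ((h4.smul hv).sub (h5.smul he)).sub (h6.smul hn)⟩

end P

section A
variable {E : Type*} [NormedAddCommGroup E] [InnerProductSpace ℝ E]

/-- The first order relation gives the curvature orthogonal to the plane. -/
theorem first {e n ν : E} {L a b q : ℝ} {S0 S1 : E → E}
    (he : ⟪e, e⟫_ℝ = 1) (hn : ⟪n, n⟫_ℝ = 1) (hν : ⟪ν, ν⟫_ℝ = 1) (hL : 0 < L) (hq : q ≠ 0)
    (hνe : ⟪ν, e⟫_ℝ ≠ 0) (hf : q • ν = a • e + b • n)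
    (sym0 : ∀ v w, ⟪S0 v, w⟫_ℝ = ⟪v, S0 w⟫_ℝ) (sym1 : ∀ v w, ⟪S1 v, w⟫_ℝ = ⟪v, S1 w⟫_ℝ)
    (S0n : S0 n = 0) (S1n : S1 ν = 0)
    (h : ∀ Y δ : E, ⟪n, Y⟫_ℝ = 0 → ⟪e, δ⟫_ℝ = 0 → ∃ L' : ℝ, ⟪ν, Y + L' • e + L • δ⟫_ℝ = 0 ∧
      ∀ w, ⟪w, e⟫_ℝ = 0 → ⟪w, n⟫_ℝ = 0 →
        q * ⟪S1 (Y + L' • e + L • δ), w⟫_ℝ = b * ⟪S0 Y, w⟫_ℝ - a * ⟪δ, w⟫_ℝ)
    {w : E} (hwe : ⟪w, e⟫_ℝ = 0) (hwn : ⟪w, n⟫_ℝ = 0) :
    (q * L) • S1 w = -(a • w) ∧ (b * L) • S0 w = -(a • w) ∧ (w ≠ 0 → b ≠ 0) := by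
  have hwν : ⟪w, ν⟫_ℝ = 0 := by
    have h1 : ⟪w, q • ν⟫_ℝ = 0 := by
      rw [hf, inner_add_right, inner_smul_right, inner_smul_right, hwe, hwn]; ring
    rw [inner_smul_right] at h1
    exact (mul_eq_zero.1 h1).resolve_left hq
  obtain ⟨κ, hκ⟩ : ∃ κ, κ = ⟪S1 w, e⟫_ℝ / ⟪ν, e⟫_ℝ := ⟨_, rfl⟩
  obtain ⟨Y1, hY1⟩ : ∃ Y1, Y1 = S1 w - κ • ν := ⟨_, rfl⟩
  have hY1e : ⟪Y1, e⟫_ℝ = 0 := by
    rw [hY1, inner_sub_left, real_inner_smul_left, hκ, div_mul_cancel₀ _ hνe, sub_self]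
  have key : ∀ Y δ : E, ⟪n, Y⟫_ℝ = 0 → ⟪e, δ⟫_ℝ = 0 →
      q * ⟪Y + L • δ, Y1⟫_ℝ = b * ⟪Y, S0 w⟫_ℝ - a * ⟪δ, w⟫_ℝ := by
    intro Y δ hY hδ
    obtain ⟨L', h1, h2⟩ := h Y δ hY hδ
    have h3 := h2 w hwe hwn
    rw [sym1, sym0] at h3
    rw [← h3]
    have h4 : S1 w = Y1 + κ • ν := by rw [hY1]; abel
    rw [h4, inner_add_right, inner_smul_right, real_inner_comm ν, h1, mul_zero, add_zero]
    congr 1
    have h5 : Y + L' • e + L • δ = (Y + L • δ) + L' • e := by abel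
    rw [h5, inner_add_left (Y + L • δ) (L' • e), real_inner_smul_left, real_inner_comm Y1 e, hY1e,
      mul_zero, add_zero]
  have e1 : (q * L) • Y1 = -(a • w) := by
    obtain ⟨δ, hδ⟩ : ∃ δ, δ = (q * L) • Y1 + a • w := ⟨_, rfl⟩
    have h1 : ⟪e, δ⟫_ℝ = 0 := by
      rw [hδ, inner_add_right, inner_smul_right, inner_smul_right, real_inner_comm Y1 e, hY1e,
        real_inner_comm w e, hwe]
      ring
    have h2 := key 0 δ (inner_zero_right _) h1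
    rw [zero_add, inner_zero_left, real_inner_smul_left] at h2
    have h3 : ⟪δ, δ⟫_ℝ = 0 := by
      nth_rewrite 2 [hδ]
      rw [inner_add_right, inner_smul_right, inner_smul_right]
      linear_combination h2
    have h4 := inner_self_eq_zero.1 h3
    rw [hδ] at h4
    exact eq_neg_of_add_eq_zero_left h4
  have hκ0 : κ = 0 := by
    have h1 : ⟪S1 w, ν⟫_ℝ = 0 := by rw [sym1, S1n, inner_zero_right]
    have h2 : ⟪Y1, ν⟫_ℝ = 0 := by
      have h3 : ⟪(q * L) • Y1, ν⟫_ℝ = 0 := by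
        rw [e1, inner_neg_left, real_inner_smul_left, hwν]; ring
      rw [real_inner_smul_left] at h3
      exact (mul_eq_zero.1 h3).resolve_left (mul_ne_zero hq hL.ne')
    rw [hY1, inner_sub_left, h1, real_inner_smul_left, hν] at h2
    linarith
  have hS1 : S1 w = Y1 := by rw [hY1, hκ0, zero_smul, sub_zero]
  have e2 : (b * L) • S0 w = -(a • w) := by
    rw [← e1]
    obtain ⟨Y, hY⟩ : ∃ Y, Y = q • Y1 - b • S0 w := ⟨_, rfl⟩
    have hY1n : ⟪n, Y1⟫_ℝ = 0 := by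
      have h3 : ⟪n, (q * L) • Y1⟫_ℝ = 0 := by
        rw [e1, inner_neg_right, inner_smul_right, real_inner_comm w n, hwn]; ring
      rw [inner_smul_right] at h3
      exact (mul_eq_zero.1 h3).resolve_left (mul_ne_zero hq hL.ne')
    have h1 : ⟪n, Y⟫_ℝ = 0 := by
      rw [hY, inner_sub_right, inner_smul_right, inner_smul_right, hY1n, ← sym0, S0n,
        inner_zero_left]
      ring
    have h2 := key Y 0 h1 (inner_zero_right _)
    rw [smul_zero, add_zero, inner_zero_left] at h2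
    have h3 : ⟪Y, Y⟫_ℝ = 0 := by
      nth_rewrite 2 [hY]
      rw [inner_sub_right, inner_smul_right, inner_smul_right]
      linear_combination h2
    have h4 := inner_self_eq_zero.1 h3
    rw [hY] at h4
    have h5 : b • S0 w = q • Y1 := (sub_eq_zero.1 h4).symm
    rw [mul_comm b L, mul_smul, h5, smul_smul, mul_comm L q]
  refine ⟨by rw [hS1]; exact e1, e2, fun hw hb => ?_⟩
  rw [hb, zero_mul, zero_smul] at e2
  have ha : a = 0 := (smul_eq_zero.1 (neg_eq_zero.1 e2.symm)).resolve_right hw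
  rw [ha, hb, zero_smul, zero_smul, add_zero] at hf
  have h1 := (smul_eq_zero.1 hf).resolve_left hq
  rw [h1, inner_zero_left] at hν
  exact zero_ne_one hν

/-- The second order relation gives the curvature of the first mirror in the plane. -/
theorem second0 {e n ν ν' : E} {L a b q L' a' b' q' : ℝ} {S0 : E → E}
    (he : ⟪e, e⟫_ℝ = 1) (hn : ⟪n, n⟫_ℝ = 1) (hL : 0 < L) (hqd : q = 1 - ⟪n, e⟫_ℝ ^ 2) (hq : q ≠ 0)
    (hc : ⟪n, e⟫_ℝ ≠ 0) (hb : b ≠ 0) (hf : q • ν = a • e + b • n)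
    (add0 : ∀ v w, S0 (v + w) = S0 v + S0 w) (smul0 : ∀ (t : ℝ) v, S0 (t • v) = t • S0 v)
    (sym0 : ∀ v w, ⟪S0 v, w⟫_ℝ = ⟪v, S0 w⟫_ℝ) (S0n : S0 n = 0)
    (hw : ∀ w, ⟪w, e⟫_ℝ = 0 → ⟪w, n⟫_ℝ = 0 → (b * L) • S0 w = -(a • w))
    (hν' : ν' = 0) {X : E} (hX : X = (L / ⟪n, e⟫_ℝ) • (e - ⟪n, e⟫_ℝ • n))
    (hX' : X + L' • e + L • (n - ⟪n, e⟫_ℝ • e) = 0)
    (hf' : q' • ν + q • ν' = a' • e + a • (n - ⟪n, e⟫_ℝ • e) + b' • n - b • S0 X)
    (ha' : a' * q * L = a * (L' * q + L * q')) {y : E} (hy : ⟪n, y⟫_ℝ = 0) :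
    (b * L) • S0 y = -(a • y) := by
  have hXn : ⟪n, X⟫_ℝ = 0 := by
    rw [hX, inner_smul_right, inner_sub_right, inner_smul_right, hn]; ring
  have h1 : (q' * b - q * b') • n + ((a * q / L) • X + (q * b) • S0 X) = 0 := by
    have h2 : q • (q' • ν + q • ν') = q' • (a • e + b • n) := by
      rw [hν', smul_zero, add_zero, smul_comm q q', hf]
    rw [hf'] at h2
    have h3 : a' * q = a * q / L * L' + a * q' := by
      have : a' * q * L = (a * q / L * L' + a * q') * L := by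
        rw [ha']; field_simp
      exact mul_right_cancel₀ hL.ne' this
    have h4 : L • (n - ⟪n, e⟫_ℝ • e) = -X - L' • e := by
      rw [eq_sub_iff_add_eq, eq_neg_iff_add_eq_zero, ← hX']; abel
    have h5 : (a * q) • (n - ⟪n, e⟫_ℝ • e) = (a * q / L) • (-X - L' • e) := by
      rw [← h4, smul_smul]; congr 1; field_simp
    have h6 : q • (a' • e + a • (n - ⟪n, e⟫_ℝ • e) + b' • n - b • S0 X) =
        (a * q / L * L' + a * q') • e + (a * q / L) • (-X - L' • e) + (q * b') • n -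
          (q * b) • S0 X := by
      rw [← h3, ← h5]
      module
    rw [h6] at h2
    have h7 : (q' * b - q * b') • n + ((a * q / L) • X + (q * b) • S0 X) =
        q' • (a • e + b • n) - ((a * q / L * L' + a * q') • e + (a * q / L) • (-X - L' • e) +
          (q * b') • n - (q * b) • S0 X) := by module
    rw [h7, h2, sub_self]
  have hS : ⟪n, S0 X⟫_ℝ = 0 := by rw [← sym0, S0n, inner_zero_left]
  have h2 : q' * b - q * b' = 0 := by
    have h3 := congrArg (fun v => ⟪n, v⟫_ℝ) h1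
    simp only [inner_add_right, inner_smul_right, hn, hXn, hS, inner_zero_right] at h3
    linarith
  rw [h2, zero_smul, zero_add] at h1
  have hSX : (b * L) • S0 X = -(a • X) := by
    have h3 : q • ((b * L) • S0 X) = q • (-(a • X)) := by
      have h4 : (q * b) • S0 X = -((a * q / L) • X) := eq_neg_of_add_eq_zero_right h1
      calc q • ((b * L) • S0 X) = L • ((q * b) • S0 X) := by
            simp only [smul_smul]; congr 1; ring
        _ = q • (-(a • X)) := by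
            rw [h4, smul_neg, smul_neg, smul_smul, smul_smul]
            congr 2
            field_simp
    exact smul_right_injective E hq h3
  -- decomposition
  have hXX : ⟪X, X⟫_ℝ ≠ 0 := by
    intro h3
    have h4 := inner_self_eq_zero.1 h3
    rw [hX] at h4
    have h5 := (smul_eq_zero.1 h4).resolve_left (div_ne_zero hL.ne' hc)
    have h6 : ⟪e - ⟪n, e⟫_ℝ • n, e⟫_ℝ = 0 := by rw [h5, inner_zero_left]
    rw [inner_sub_left, real_inner_smul_left, he] at h6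
    apply hq
    rw [hqd]
    linarith
  obtain ⟨t, ht⟩ : ∃ t, t = ⟪y, X⟫_ℝ / ⟪X, X⟫_ℝ := ⟨_, rfl⟩
  obtain ⟨w, hwd⟩ : ∃ w, w = y - t • X := ⟨_, rfl⟩
  have hwX : ⟪w, X⟫_ℝ = 0 := by
    rw [hwd, inner_sub_left, real_inner_smul_left, ht, div_mul_cancel₀ _ hXX, sub_self]
  have hwn : ⟪w, n⟫_ℝ = 0 := by
    rw [hwd, inner_sub_left, real_inner_smul_left, real_inner_comm n y, hy, real_inner_comm n X, hXn]
    ring
  have hwe : ⟪w, e⟫_ℝ = 0 := by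
    rw [hX, inner_smul_right, inner_sub_right, inner_smul_right, hwn, mul_zero, sub_zero] at hwX
    exact (mul_eq_zero.1 hwX).resolve_left (div_ne_zero hL.ne' hc)
  have hy2 : y = w + t • X := by rw [hwd]; abel
  rw [hy2, add0, smul0, smul_add, hw w hwe hwn, smul_comm, hSX]
  module

/-- The second order relation gives the curvature of the second mirror in the plane. -/
theorem second1 {e n ν ν' : E} {L a b q L' a' b' q' : ℝ} {S1 : E → E}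
    (he : ⟪e, e⟫_ℝ = 1) (hn : ⟪n, n⟫_ℝ = 1) (hν : ⟪ν, ν⟫_ℝ = 1) (hL : 0 < L)
    (hqd : q = 1 - ⟪n, e⟫_ℝ ^ 2) (hq : q ≠ 0)
    (hb : b ≠ 0) (hf : q • ν = a • e + b • n)
    (add1 : ∀ v w, S1 (v + w) = S1 v + S1 w) (smul1 : ∀ (t : ℝ) v, S1 (t • v) = t • S1 v)
    (sym1 : ∀ v w, ⟪S1 v, w⟫_ℝ = ⟪v, S1 w⟫_ℝ) (S1n : S1 ν = 0)
    (hw : ∀ w, ⟪w, e⟫_ℝ = 0 → ⟪w, n⟫_ℝ = 0 → (q * L) • S1 w = -(a • w))
    {X : E} (hX : X = L' • e + L • (n - ⟪n, e⟫_ℝ • e)) (hXν : ⟪ν, X⟫_ℝ = 0)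
    (hν' : ν' = -S1 X)
    (hf' : q' • ν + q • ν' = a' • e + a • (n - ⟪n, e⟫_ℝ • e) + b' • n)
    (ha' : a' * b * L = a * (L' * b + L * b')) {y : E} (hy : ⟪ν, y⟫_ℝ = 0) :
    (q * L) • S1 y = -(a • y) := by
  have hS : ⟪ν, S1 X⟫_ℝ = 0 := by rw [← sym1, S1n, inner_zero_left]
  have h1 : (b * q' - q * b') • ν - ((q * b) • S1 X + (a * b / L) • X) = 0 := by
    have h3 : a' * b = a * b / L * L' + a * b' := by
      have : a' * b * L = (a * b / L * L' + a * b') * L := by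
        rw [ha']; field_simp
      exact mul_right_cancel₀ hL.ne' this
    have h4 : L • (n - ⟪n, e⟫_ℝ • e) = X - L' • e := by rw [hX]; abel
    have h5 : (a * b) • (n - ⟪n, e⟫_ℝ • e) = (a * b / L) • (X - L' • e) := by
      rw [← h4, smul_smul]; congr 1; field_simp
    have h6 : b • (a' • e + a • (n - ⟪n, e⟫_ℝ • e) + b' • n) =
        (a * b / L * L' + a * b') • e + (a * b / L) • (X - L' • e) + (b * b') • n := by
      rw [← h3, ← h5]
      module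
    have h7 : b • (q' • ν + q • ν') = b • (a' • e + a • (n - ⟪n, e⟫_ℝ • e) + b' • n) := by
      rw [hf']
    rw [h6, hν'] at h7
    have h8 : b' • (q • ν) = b' • (a • e + b • n) := by rw [hf]
    have h9 : (b * q' - q * b') • ν - ((q * b) • S1 X + (a * b / L) • X) =
        (b • (q' • ν + q • -S1 X) - ((a * b / L * L' + a * b') • e +
          (a * b / L) • (X - L' • e) + (b * b') • n)) -
        (b' • (q • ν) - b' • (a • e + b • n)) := by module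
    rw [h9, h7, h8, sub_self, sub_self, sub_self]
  have h2 : b * q' - q * b' = 0 := by
    have h3 := congrArg (fun v => ⟪ν, v⟫_ℝ) h1
    simp only [inner_sub_right, inner_add_right, inner_smul_right, hν, hXν, hS,
      inner_zero_right] at h3
    linarith
  rw [h2, zero_smul, zero_sub, neg_eq_zero] at h1
  have hSX : (q * L) • S1 X = -(a • X) := by
    have h3 : b • ((q * L) • S1 X) = b • (-(a • X)) := by
      have h4 : (q * b) • S1 X = -((a * b / L) • X) := eq_neg_of_add_eq_zero_left h1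
      calc b • ((q * L) • S1 X) = L • ((q * b) • S1 X) := by
            simp only [smul_smul]; congr 1; ring
        _ = b • (-(a • X)) := by
            rw [h4, smul_neg, smul_neg, smul_smul, smul_smul]
            congr 2
            field_simp
    exact smul_right_injective E hb h3
  have hD : b * (L' - L * ⟪n, e⟫_ℝ) - a * L ≠ 0 := by
    intro h0
    have h3 : b • X - (L * q) • ν = (b * (L' - L * ⟪n, e⟫_ℝ) - a * L) • e := by
      rw [mul_smul, hf, hX]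
      module
    rw [h0, zero_smul] at h3
    have h4 := congrArg (fun v => ⟪ν, v⟫_ℝ) h3
    simp only [inner_sub_right, inner_smul_right, hν, hXν, inner_zero_right] at h4
    exact mul_ne_zero hL.ne' hq (by linarith)
  have hXX : ⟪X, X⟫_ℝ ≠ 0 := by
    intro h3
    have h4 := inner_self_eq_zero.1 h3
    have h5 : L • (n - ⟪n, e⟫_ℝ • e) = -(L' • e) := by
      rw [← sub_eq_zero, sub_neg_eq_add, ← h4, hX]; abel
    have h6 := congrArg (fun v => ⟪v, n⟫_ℝ) h5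
    have h7 := congrArg (fun v => ⟪v, e⟫_ℝ) h5
    simp only [real_inner_smul_left, inner_sub_left, inner_neg_left, hn, he,
      real_inner_comm n e] at h6 h7
    have h8 : L' = 0 := by linarith
    rw [h8] at h6
    apply mul_ne_zero hL.ne' hq
    rw [hqd]
    linarith
  obtain ⟨t, ht⟩ : ∃ t, t = ⟪y, X⟫_ℝ / ⟪X, X⟫_ℝ := ⟨_, rfl⟩
  obtain ⟨w, hwd⟩ : ∃ w, w = y - t • X := ⟨_, rfl⟩
  have hwX : ⟪w, X⟫_ℝ = 0 := by
    rw [hwd, inner_sub_left, real_inner_smul_left, ht, div_mul_cancel₀ _ hXX, sub_self]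
  have hwν : ⟪w, ν⟫_ℝ = 0 := by
    rw [hwd, inner_sub_left, real_inner_smul_left, real_inner_comm ν y, hy, real_inner_comm ν X, hXν]
    ring
  have hwe : ⟪w, e⟫_ℝ = 0 := by
    have h3 : b • X - (L * q) • ν = (b * (L' - L * ⟪n, e⟫_ℝ) - a * L) • e := by
      rw [mul_smul, hf, hX]
      module
    have h4 := congrArg (fun v => ⟪w, v⟫_ℝ) h3
    simp only [inner_sub_right, inner_smul_right, hwX, hwν] at h4
    have h5 : (b * (L' - L * ⟪n, e⟫_ℝ) - a * L) * ⟪w, e⟫_ℝ = 0 := by linarith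
    exact (mul_eq_zero.1 h5).resolve_left hD
  have hwn : ⟪w, n⟫_ℝ = 0 := by
    rw [hX, inner_add_right, inner_smul_right, inner_smul_right, inner_sub_right, inner_smul_right,
      hwe] at hwX
    have h5 : L * ⟪w, n⟫_ℝ = 0 := by linarith
    exact (mul_eq_zero.1 h5).resolve_left hL.ne'
  have hy2 : y = w + t • X := by rw [hwd]; abel
  rw [hy2, add1, smul1, smul_add, hw w hwe hwn, smul_comm, hSX]
  module

end A

end Pool.Agent.T2H44.PL
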