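import Pool.Agent.T2H44.PL.Chn
import Pool.Agent.T2H44.PL.Def

/-!
# Periodic orbits with coplanar sides
-/

set_option autoImplicit false

open MeasureTheory Set Filter Topology
open scoped InnerProductSpace ENNReal
open Pool.Agent.H721R2.Quart Pool.Agent.H721R2.Ivrii Pool.Agent.TH746 Pool.Agent.TH318.Iv
open Pool.Agent.T2H44.IV Pool.Agent.TH746.UM

namespace Pool.Agent.T2H44.PL

/-- A function which vanishes on a set has zero derivative there, up to a set of smaller dimension. -/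
theorem small {Z F : Type*} [NormedAddCommGroup Z] [NormedSpace ℝ Z] [FiniteDimensional ℝ Z]
    [NormedAddCommGroup F] [NormedSpace ℝ F] {m : ℕ} (hm : Module.finrank ℝ Z = m + 1)
    {A : Set Z} {f : Z → F} (hf : ∀ z ∈ A, DifferentiableAt ℝ f z) (h0 : ∀ z ∈ A, f z = 0) :
    dimH {z | z ∈ A ∧ ¬ ∀ ζ, fderiv ℝ f z ζ = 0} ≤ m := by
  refine (dimH_mono ?_).trans (dimH_ker hf h0 m)
  rintro z ⟨hz, h⟩
  refine ⟨hz, ?_⟩
  have h1 := Submodule.finrank_lt (s := LinearMap.ker (fderiv ℝ f z : Z →ₗ[ℝ] F))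
    (fun h2 => h fun ζ => LinearMap.mem_ker.1 (h2 ▸ Submodule.mem_top : ζ ∈ LinearMap.ker
      (fderiv ℝ f z : Z →ₗ[ℝ] F)))
  omega

section P
variable {E : Type*} [NormedAddCommGroup E] [InnerProductSpace ℝ E]

theorem pr_span {e n : E} (he : ⟪e, e⟫_ℝ = 1) (hn : ⟪n, n⟫_ℝ = 1) (α β : ℝ) :
    pr e n (α • e + β • n) = 0 := by
  unfold pr
  rw [inner_add_left, inner_add_left, real_inner_smul_left, real_inner_smul_left,
    real_inner_smul_left, real_inner_smul_left, he, hn, real_inner_comm n e]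
  module

/-- The coplanarity of the directions gives the coplanarity of the normals. -/
theorem dep {e n ν : E} (he : ⟪e, e⟫_ℝ = 1) (hn : ⟪n, n⟫_ℝ = 1) (hν : ⟪ν, ν⟫_ℝ = 1)
    (hne : ⟪n, e⟫_ℝ ≠ 0) (hνe : ⟪ν, e⟫_ℝ ≠ 0)
    (h : ¬ LinearIndependent ℝ ![rf n e, e, rf ν e]) : pr e n ν = 0 := by
  by_contra hcon
  apply h
  rw [Fintype.linearIndependent_iff]
  intro g hg
  rw [Fin.sum_univ_three] at hg
  simp only [Matrix.cons_val_zero, Matrix.cons_val_one, Matrix.cons_val] at hg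
  unfold rf at hg
  obtain ⟨x, hx⟩ : ∃ x, x = g 0 := ⟨_, rfl⟩
  obtain ⟨y, hy⟩ : ∃ y, y = g 1 := ⟨_, rfl⟩
  obtain ⟨t, ht⟩ : ∃ t, t = g 2 := ⟨_, rfl⟩
  rw [← hx, ← hy, ← ht] at hg
  have h1 : (2 * ⟪ν, e⟫_ℝ * t) • ν = (x + y + t) • e + (-(2 * ⟪n, e⟫_ℝ * x)) • n := by
    rw [← sub_eq_zero, ← neg_eq_zero, ← hg]
    module
  have ht0 : t = 0 := by
    by_contra ht0
    apply hcon
    have h2 : 2 * ⟪ν, e⟫_ℝ * t ≠ 0 := mul_ne_zero (mul_ne_zero two_ne_zero hνe) ht0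
    have h3 : ν = ((2 * ⟪ν, e⟫_ℝ * t)⁻¹ * (x + y + t)) • e +
        ((2 * ⟪ν, e⟫_ℝ * t)⁻¹ * (-(2 * ⟪n, e⟫_ℝ * x))) • n := by
      rw [mul_smul, mul_smul, ← smul_add, ← h1, smul_smul, inv_mul_cancel₀ h2, one_smul]
    rw [h3]
    exact pr_span he hn _ _
  rw [ht0, mul_zero, zero_smul, add_zero] at h1
  have hx0 : x = 0 := by
    by_contra hx0
    apply hcon
    have h2 : 2 * ⟪n, e⟫_ℝ * x ≠ 0 := mul_ne_zero (mul_ne_zero two_ne_zero hne) hx0
    have h3 : n = ((2 * ⟪n, e⟫_ℝ * x)⁻¹ * (x + y)) • e := by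
      have h4 : (2 * ⟪n, e⟫_ℝ * x) • n = (x + y) • e := by
        rw [← sub_eq_zero]
        rw [eq_comm, ← neg_eq_zero] at h1
        rw [← h1]
        module
      rw [mul_smul, ← h4, smul_smul, inv_mul_cancel₀ h2, one_smul]
    obtain ⟨α, hα⟩ : ∃ α, α = (2 * ⟪n, e⟫_ℝ * x)⁻¹ * (x + y) := ⟨_, rfl⟩
    rw [← hα] at h3
    have h5 : α ^ 2 = 1 := by
      rw [h3, real_inner_smul_left, inner_smul_right, he] at hn
      linarith
    have h6 : ⟪n, e⟫_ℝ = α := by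
      rw [h3, real_inner_smul_left, he, mul_one]
    unfold pr
    rw [h6, h3, inner_smul_right, h5]
    have h7 : ⟪ν, e⟫_ℝ - α * (α * ⟪ν, e⟫_ℝ) = 0 := by
      linear_combination (-⟪ν, e⟫_ℝ) * h5
    rw [h7]
    simp
  rw [hx0] at h1
  have hy0 : y = 0 := by
    have h2 := congrArg (fun v => ⟪v, e⟫_ℝ) h1
    simp only [mul_zero, neg_zero, zero_smul, add_zero, zero_add, inner_zero_left,
      real_inner_smul_left, he] at h2
    linarith
  intro i
  fin_cases i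
  · exact hx.symm.trans hx0
  · exact hy.symm.trans hy0
  · exact ht.symm.trans ht0

end P

section
variable {E Z : Type*} [NormedAddCommGroup E] [InnerProductSpace ℝ E] [FiniteDimensional ℝ E]
  [NormedAddCommGroup Z] [NormedSpace ℝ Z] [FiniteDimensional ℝ Z] (C : Chn E Z)

/-- Both mirrors are umbilic. -/
def Um (z : Z) : Prop :=
  (∃ h : ℝ, ∀ y, ⟪C.n 0 z, y⟫_ℝ = 0 → C.S 0 z y = h • y) ∧
    (∃ h : ℝ, ∀ y, ⟪C.n 1 z, y⟫_ℝ = 0 → C.S 1 z y = h • y)

variable {C}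

theorem perp_small (hd : 2 ≤ Module.finrank ℝ E) {m : ℕ} (hm : Module.finrank ℝ Z = m + 1) :
    dimH {z | z ∈ C.U ∧ qf C z = 0} ≤ m := by
  have h0 := C.hN
  obtain ⟨mf, hmf⟩ : ∃ mf : Z → E, mf = fun z => C.n 0 z - ⟪C.n 0 z, C.e 0 z⟫_ℝ • C.e 0 z := ⟨_, rfl⟩
  have hz0 : ∀ z ∈ {z | z ∈ C.U ∧ qf C z = 0}, mf z = 0 := by
    rintro z ⟨hz, hq⟩
    rw [← inner_self_eq_zero (𝕜 := ℝ), hmf]
    simp only [inner_sub_left, inner_sub_right, real_inner_smul_left, inner_smul_right,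
      C.ee 0 h0 z hz, C.nn 0 h0 z hz, real_inner_comm (C.n 0 z) (C.e 0 z)]
    unfold qf at hq
    linear_combination hq
  have hdiff : ∀ z ∈ {z | z ∈ C.U ∧ qf C z = 0}, DifferentiableAt ℝ mf z := by
    rintro z ⟨hz, -⟩
    rw [hmf]
    exact (C.dn 0 (Nat.zero_le _) z hz).sub (((C.dn 0 (Nat.zero_le _) z hz).inner ℝ
      (C.de 0 (Nat.zero_le _) z hz)).smul (C.de 0 (Nat.zero_le _) z hz))
  refine (dimH_mono ?_).trans (small hm hdiff hz0)
  intro z hz
  refine ⟨hz, fun hall => ?_⟩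
  have hmz := hz0 z hz
  obtain ⟨δ, hδ0, hδ⟩ : ∃ δ : E, δ ≠ 0 ∧ ⟪C.e 0 z, δ⟫_ℝ = 0 := by
    have h1 := Submodule.finrank_add_finrank_orthogonal (ℝ ∙ (C.e 0 z))
    have h2 : Module.finrank ℝ (ℝ ∙ (C.e 0 z)) = 1 := by
      refine finrank_span_singleton fun h => ?_
      have h6 := C.ee 0 h0 z hz.1
      rw [h, inner_zero_left] at h6
      exact zero_ne_one h6
    have h3 : 0 < Module.finrank ℝ (ℝ ∙ (C.e 0 z))ᗮ := by omega
    obtain ⟨⟨δ, hδ⟩, hne⟩ := Module.finrank_pos_iff_exists_ne_zero.1 h3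
    exact ⟨δ, fun h => hne (Subtype.ext h),
      Submodule.mem_orthogonal_singleton_iff_inner_right.1 hδ⟩
  obtain ⟨ζ, hζ1, hζ2⟩ := C.surj z hz.1 0 δ (inner_zero_right _) hδ
  have he := line (C.de 0 (Nat.zero_le _) z hz.1) ζ
  have hn := line (C.dn 0 (Nat.zero_le _) z hz.1) ζ
  have hn' : fderiv ℝ (C.n 0) z ζ = 0 := by
    rw [C.njac 0 h0 z hz.1, hζ1, map_zero, neg_zero]
  rw [hn'] at hn
  rw [hζ2] at he
  have h1 := line (hdiff z hz) ζ
  rw [hall] at h1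
  have h2 := hn.sub ((hn.inner ℝ he).smul he)
  have h3 : (fun t : ℝ => mf (z + t • ζ)) = (fun t : ℝ => C.n 0 (z + t • ζ)) -
      (fun t : ℝ => ⟪C.n 0 (z + t • ζ), C.e 0 (z + t • ζ)⟫_ℝ) • fun t : ℝ => C.e 0 (z + t • ζ) := by
    rw [hmf]; rfl
  rw [h3] at h1
  have h4 := h1.unique h2
  simp only [zero_smul, add_zero, inner_zero_left, zero_sub] at h4
  have h5 : ⟪C.n 0 z, δ⟫_ℝ = 0 := by
    rw [hmf] at hmz
    have h6 : C.n 0 z = ⟪C.n 0 z, C.e 0 z⟫_ℝ • C.e 0 z := sub_eq_zero.1 hmz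
    rw [h6, real_inner_smul_left, hδ, mul_zero]
  rw [h5, zero_smul, add_zero, eq_comm, neg_eq_zero] at h4
  rcases smul_eq_zero.1 h4 with h6 | h6
  · exact C.tr 0 h0 z hz.1 h6
  · exact hδ0 h6

theorem set_small (hd : 3 ≤ Module.finrank ℝ E) (hN : 1 < C.N) {m : ℕ}
    (hm : Module.finrank ℝ Z = m + 1) :
    dimH {z | z ∈ C.U ∧ ff C z = 0 ∧ ¬ Um C z} ≤ m := by
  have h0 := C.hN
  obtain ⟨A1, hA1⟩ : ∃ A1 : Set Z, A1 = {z | z ∈ C.U ∧ ff C z = 0} := ⟨_, rfl⟩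
  obtain ⟨A2, hA2⟩ : ∃ A2 : Set Z, A2 = {z | z ∈ C.U ∧ ff C z = 0 ∧ qf C z ≠ 0 ∧
    ∀ ζ, fderiv ℝ (ff C) z ζ = 0} := ⟨_, rfl⟩
  obtain ⟨b, hb⟩ : ∃ b : Module.Basis (Fin (Module.finrank ℝ E)) ℝ E, b = Module.finBasis ℝ E :=
    ⟨_, rfl⟩
  refine (dimH_mono (t := {z | z ∈ C.U ∧ qf C z = 0} ∪
    ({z | z ∈ A1 ∧ ¬ ∀ ζ, fderiv ℝ (ff C) z ζ = 0} ∪
      ⋃ i, {z | z ∈ A2 ∧ ¬ ∀ ζ, fderiv ℝ (gf C (b i)) z ζ = 0})) ?_).trans ?_
  · rintro z ⟨hz, hf, hu⟩
    by_cases hq : qf C z = 0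
    · left; exact ⟨hz, hq⟩
    right
    by_cases hf1 : ∀ ζ, fderiv ℝ (ff C) z ζ = 0
    swap
    · left; rw [hA1]; exact ⟨⟨hz, hf⟩, hf1⟩
    right
    by_contra hcon
    rw [mem_iUnion, not_exists] at hcon
    have hbi : ∀ i ζ, fderiv ℝ (gf C (b i)) z ζ = 0 := by
      intro i
      by_contra h1
      exact hcon i ⟨by rw [hA2]; exact ⟨hz, hf, hq, hf1⟩, h1⟩
    have hg : ∀ w ζ, fderiv ℝ (gf C w) z ζ = 0 := by
      intro w ζ
      have h1 : gf C w = fun z => ∑ i, b.repr w i • gf C (b i) z := by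
        funext z'
        have h2 : ∀ (s : Finset (Fin (Module.finrank ℝ E))) (c : Fin (Module.finrank ℝ E) → ℝ),
            gf C (∑ i ∈ s, c i • b i) z' = ∑ i ∈ s, c i • gf C (b i) z' := by
          intro s c
          induction s using Finset.cons_induction with
          | empty =>
            rw [Finset.sum_empty, Finset.sum_empty]
            have := gf_smul (C := C) 0 (0 : E) z'
            rwa [zero_smul, zero_smul] at this
          | cons i s hi ih => rw [Finset.sum_cons, Finset.sum_cons, gf_add, gf_smul, ih]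
        rw [← h2, b.sum_repr]
      have h3 : HasFDerivAt (gf C w) (∑ i, b.repr w i • fderiv ℝ (gf C (b i)) z) z := by
        rw [h1]
        exact HasFDerivAt.fun_sum fun i _ => ((gf_diff hN hz (b i)).hasFDerivAt).fun_const_smul _
      rw [h3.fderiv]
      simp [hbi]
    apply hu
    obtain ⟨w0, hw0, hw0e, hw0n⟩ : ∃ w0 : E, w0 ≠ 0 ∧ ⟪w0, C.e 0 z⟫_ℝ = 0 ∧
        ⟪w0, C.n 0 z⟫_ℝ = 0 := by
      have h1 := Submodule.finrank_add_finrank_orthogonal (Submodule.span ℝ {C.e 0 z, C.n 0 z})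
      have h2 : Module.finrank ℝ (Submodule.span ℝ {C.e 0 z, C.n 0 z}) ≤ 2 := by
        classical
        have h3 := finrank_span_finset_le_card (R := ℝ) ({C.e 0 z, C.n 0 z} : Finset E)
        rw [Finset.coe_pair] at h3
        exact h3.trans Finset.card_le_two
      have h3 : 0 < Module.finrank ℝ (Submodule.span ℝ {C.e 0 z, C.n 0 z})ᗮ := by omega
      obtain ⟨⟨w, hw⟩, hne⟩ := Module.finrank_pos_iff_exists_ne_zero.1 h3
      rw [Submodule.mem_orthogonal'] at hw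
      exact ⟨w, fun h => hne (Subtype.ext h), hw _ (Submodule.subset_span (by simp)),
        hw _ (Submodule.subset_span (by simp))⟩
    exact umb hN hz hq hf hf1 hg hw0 hw0e hw0n
  · rw [dimH_union, dimH_union, dimH_iUnion]
    refine max_le (perp_small (by omega) hm) (max_le ?_ (iSup_le fun i => ?_))
    · refine small hm (fun z hz => ?_) (fun z hz => ?_)
      · rw [hA1] at hz; exact ff_diff hN hz.1
      · rw [hA1] at hz; exact hz.2
    · refine small hm (fun z hz => ?_) (fun z hz => ?_)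
      · rw [hA2] at hz; exact gf_diff hN hz.1 _
      · rw [hA2] at hz; exact gf_zero hN hz.1 hz.2.2.1 hz.2.1 hz.2.2.2 _

end

section
variable {E : Type*} [NormedAddCommGroup E] [InnerProductSpace ℝ E] [FiniteDimensional ℝ E]

/-- The side before the first bounce and the two sides after it are coplanar, but the first two
bounces are not both umbilic. -/
def CB (Ω : Set E) (n : ℕ) (p u : ℕ → E) : Prop :=
  Cop u (n - 1) ∧ ¬ (Umbilic Ω (p 0) ∧ Umbilic Ω (p 1))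

theorem cop_map (G : E ≃ₗᵢ[ℝ] E) {a b c : E} (h : ¬ LinearIndependent ℝ ![G a, G b, G c]) :
    ¬ LinearIndependent ℝ ![a, b, c] := by
  intro h1
  apply h
  have h2 := h1.map' (G.toLinearEquiv : E →ₗ[ℝ] E) (LinearEquiv.ker _)
  have h3 : (⇑(G.toLinearEquiv : E →ₗ[ℝ] E) ∘ ![a, b, c]) = ![G a, G b, G c] := by
    funext i
    fin_cases i <;> rfl
  rwa [h3] at h2

theorem umb_of {Ω : Set E} {q n : E} {S : E → E} {F : E → ℝ} (hF : LocalDef Ω q F)
    (hn : n = dir (gradient F q)) (hS : ∀ a, ⟪n, a⟫_ℝ = 0 → ⟪S a, a⟫_ℝ =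
      -(‖gradient F q‖⁻¹ * fderiv ℝ (fderiv ℝ F) q a a))
    (h : ∃ h : ℝ, ∀ y, ⟪n, y⟫_ℝ = 0 → S y = h • y) : Umbilic Ω q := by
  obtain ⟨h, hh⟩ := h
  refine ⟨-h, F, hF, fun w hw => ?_⟩
  have hg : 0 < ‖gradient F q‖ := norm_pos_iff.2 hF.grad
  have h1 : ⟪n, w⟫_ℝ = 0 := by
    rw [hn]; unfold dir
    rw [real_inner_smul_left, hw, mul_zero]
  have h2 := hS w h1
  rw [hh w h1, real_inner_smul_left, real_inner_self_eq_norm_sq] at h2
  field_simp at h2
  linarith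

theorem local_small (hd : 3 ≤ Module.finrank ℝ E) {Ω : Set E} {g : E ≃ᵃⁱ[ℝ] E}
    (hg : g ⁻¹' Ω = Ω) {n : ℕ} (hn : 2 ≤ n) {m : ℕ} (hm : m ≤ n) {p u : ℕ → E}
    (h : OrbitMod Ω g n p u) :
    ∃ Y : Set (E × E), dimH Y ≤ ((2 * Module.finrank ℝ E - 3 : ℕ) : ℝ≥0∞) ∧
      ∀ᶠ w : (ℕ → E) × (ℕ → E) in 𝓝 (p, u), (OrbitMod Ω g n w.1 w.2 ∧
        CB Ω n w.1 w.2) → (w.1 m, w.2 m) ∈ Y := by
  obtain ⟨a, b, C, ha, hb, hCN, hCg, hLip, hev⟩ := exists_chn2 hg h
  have hN : 1 < C.N := by omega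
  have hfr : Module.finrank ℝ ((ℝ ∙ a)ᗮ × (ℝ ∙ b)ᗮ) = (2 * Module.finrank ℝ E - 3) + 1 := by
    have h1 := Submodule.finrank_add_finrank_orthogonal (ℝ ∙ a)
    have h2 := Submodule.finrank_add_finrank_orthogonal (ℝ ∙ b)
    rw [finrank_span_singleton ha] at h1
    rw [finrank_span_singleton hb] at h2
    rw [Module.finrank_prod]
    omega
  obtain ⟨K, hK⟩ := hLip m hm
  refine ⟨(fun z => (C.x m z, C.e m z)) '' {z | z ∈ C.U ∧ ff C z = 0 ∧ ¬ Um C z}, ?_, ?_⟩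
  · have hK' : LipschitzOnWith K (fun z => (C.x m z, C.e m z))
        {z | z ∈ C.U ∧ ff C z = 0 ∧ ¬ Um C z} := hK.mono fun z hz => hz.1
    exact hK'.dimH_image_le.trans (set_small hd hN hfr)
  · filter_upwards [hev] with w hw hor
    obtain ⟨hor, hcop, hum⟩ := hor
    obtain ⟨z, hzU, hz1, hz2, hz3⟩ := hw hor
    refine ⟨z, ⟨hzU, ?_, ?_⟩, ?_⟩
    · -- coplanarity
      have h0 := C.hN
      obtain ⟨k, hk⟩ : ∃ k, n = k + 1 := ⟨n - 1, by omega⟩
      have e1 : w.2 n = C.G (C.e 0 z) := by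
        have := hor.peru 0
        rw [zero_add] at this
        rw [this, C.G_apply, hCg, (hz1 0 (Nat.zero_le _)).2]
      have e2 : w.2 (n + 1) = C.G (rf (C.n 1 z) (C.e 0 z)) := by
        have := hor.peru 1
        rw [add_comm] at this
        rw [this, ← C.refl 0 h0 z, C.G_apply, hCg, (hz1 (0 + 1) (by omega)).2]
      have e3 : w.2 (n - 1) = C.G (rf (C.n 0 z) (C.e 0 z)) := by
        have h1 := C.refl k (by omega) z
        have h2 : C.e k z = rf (C.n (k + 1) z) (C.e (k + 1) z) := by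
          rw [h1, G3_rf_invol]
          have h3 : k + 1 = C.N := by omega
          rw [h3, hz2, C.G_iso]
          exact C.nn 0 h0 z hzU
        have h4 : n - 1 = k := by omega
        rw [h4, ← (hz1 k (by omega)).2, h2, ← hk, C.G_rf]
        have h5 : n = C.N := hCN.symm
        have h6 : C.n n z = C.G (C.n 0 z) := by rw [h5]; exact hz2
        rw [h6, (hz1 n le_rfl).2, e1]
      refine dep (C.ee 0 h0 z hzU) (C.nn 0 h0 z hzU) (C.nn 1 hN z hzU) (C.tr 0 h0 z hzU) ?_ ?_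
      · intro h1
        apply C.tr 1 hN z hzU
        rw [C.refl 0 h0 z]
        unfold rf
        rw [inner_sub_right, inner_smul_right, h1]
        simp
      · apply cop_map C.g.linearIsometryEquiv
        have h5 := hcop
        unfold Cop at h5
        have h6 : n - 1 + 1 = n := by omega
        have h7 : n - 1 + 2 = n + 1 := by omega
        rw [h6, h7, e1, e2, e3] at h5
        exact h5
    · intro hUm
      apply hum
      obtain ⟨F, hF1, hF2, hF3⟩ := hz3 0 (by omega)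
      obtain ⟨F', hF1', hF2', hF3'⟩ := hz3 1 (by omega)
      exact ⟨umb_of hF1 hF2 hF3 hUm.1, umb_of hF1' hF2' hF3' hUm.2⟩
    · simp only
      rw [(hz1 m hm).1, (hz1 m hm).2]

/-- The phase points after `m` bounces. -/
def Pb (Ω : Set E) (g : E ≃ᵃⁱ[ℝ] E) (n m : ℕ) : Set (E × E) :=
  (fun w : (ℕ → E) × (ℕ → E) => (w.1 m, w.2 m)) ''
    {w | OrbitMod Ω g n w.1 w.2 ∧ CB Ω n w.1 w.2}

theorem pb_small (hd : 3 ≤ Module.finrank ℝ E) {Ω : Set E} {g : E ≃ᵃⁱ[ℝ] E}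
    (hg : g ⁻¹' Ω = Ω) {n : ℕ} (hn : 2 ≤ n) {m : ℕ} (hm : m ≤ n) :
    dimH (Pb Ω g n m) ≤ ((2 * Module.finrank ℝ E - 3 : ℕ) : ℝ≥0∞) := by
  apply dim_of_local
  rintro ⟨p, u⟩ ⟨h, -⟩
  exact local_small hd hg hn hm h

theorem umbilic_map {g : E ≃ᵃⁱ[ℝ] E} {Ω : Set E} (hg : g ⁻¹' Ω = Ω) {q : E}
    (h : Umbilic Ω q) : Umbilic Ω (g q) := by
  have h1 : Umbilic Ω (g.symm (g q)) := by rw [g.symm_apply_apply]; exact h
  have h2 := Pool.Agent.TH746.OB.umbilic_comp g.symm h1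
  rwa [preimage_symm hg] at h2

theorem umbilic_map' {g : E ≃ᵃⁱ[ℝ] E} {Ω : Set E} (hg : g ⁻¹' Ω = Ω) {q : E}
    (h : Umbilic Ω (g q)) : Umbilic Ω q := by
  have h2 := Pool.Agent.TH746.OB.umbilic_comp g h
  rwa [hg] at h2

/-- The condition at the bounce `j + 1` of the trajectory. -/
theorem orbit_alt {Ω : Set E} {g : E ≃ᵃⁱ[ℝ] E} (hg : g ⁻¹' Ω = Ω) {n : ℕ} (hn : 2 ≤ n)
    {p u : ℕ → E} (h : OrbitMod Ω g n p u)
    (hcon : ∀ m ≤ n, (g (p 0), g.linearIsometryEquiv (u 0)) ∉ Pb Ω g n m) {k : ℕ} (hk : k < n)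
    (hc : CopEnd n u k) : Umbilic Ω (p k) := by
  -- the alternative for one side
  have key : ∀ j < n, Cop u j → Umbilic Ω (p (j + 1)) ∧ Umbilic Ω (p (j + 2)) := by
    intro j hj hc
    by_contra hu
    apply hcon (n - (j + 1)) (Nat.sub_le _ _)
    refine ⟨(fun k => p (k + (j + 1)), fun k => u (k + (j + 1))), ⟨OrbitMod.shift' h (j + 1), ?_, ?_⟩,
      ?_⟩
    · intro h1
      have e1 : n - 1 + (j + 1) = j + n := by omega
      have e2 : n - 1 + 1 + (j + 1) = j + 1 + n := by omega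
      have e3 : n - 1 + 2 + (j + 1) = j + 2 + n := by omega
      change LinearIndependent ℝ ![u (n - 1 + (j + 1)), u (n - 1 + 1 + (j + 1)),
        u (n - 1 + 2 + (j + 1))] at h1
      rw [e1, e2, e3, h.peru, h.peru, h.peru] at h1
      have h2 : ¬ LinearIndependent ℝ ![g.linearIsometryEquiv.symm (g.linearIsometryEquiv (u j)),
        g.linearIsometryEquiv.symm (g.linearIsometryEquiv (u (j + 1))),
        g.linearIsometryEquiv.symm (g.linearIsometryEquiv (u (j + 2)))] := by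
        simp only [LinearIsometryEquiv.symm_apply_apply]
        exact hc
      exact cop_map g.linearIsometryEquiv.symm h2 h1
    · intro h1
      apply hu
      refine ⟨?_, ?_⟩
      · have := h1.1
        change Umbilic Ω (p (0 + (j + 1))) at this
        rwa [zero_add] at this
      · have := h1.2
        change Umbilic Ω (p (1 + (j + 1))) at this
        rwa [show 1 + (j + 1) = j + 2 by ring] at this
    · simp only
      have e : n - (j + 1) + (j + 1) = 0 + n := by omega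
      rw [e, h.perp, h.peru]
  -- periodicity
  have hmod : ∀ j, Cop u j → Cop u (j % n) := by
    intro j
    induction j using Nat.strong_induction_on with
    | _ j ih =>
      intro hc
      rcases Nat.lt_or_ge j n with h1 | h1
      · rwa [Nat.mod_eq_of_lt h1]
      · obtain ⟨i, hi⟩ : ∃ i, j = i + n := ⟨j - n, by omega⟩
        have h2 : Cop u i := by
          unfold Cop at hc ⊢
          rw [hi, show i + n + 1 = i + 1 + n by ring, show i + n + 2 = i + 2 + n by ring, h.peru,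
            h.peru, h.peru] at hc
          exact cop_map g.linearIsometryEquiv hc
        have h3 := ih i (by omega) h2
        rw [hi, Nat.add_mod_right]
        exact h3
  obtain ⟨j, hj, hjk⟩ := hc
  have hj' := hmod j hj
  have hlt : j % n < n := Nat.mod_lt _ (by omega)
  obtain ⟨k1, k2⟩ := key (j % n) hlt hj'
  have hum : ∀ i, i < 2 * n → Umbilic Ω (p i) → Umbilic Ω (p (i % n)) := by
    intro i hi hu
    rcases Nat.lt_or_ge i n with h1 | h1
    · rwa [Nat.mod_eq_of_lt h1]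
    · obtain ⟨l, hl⟩ : ∃ l, i = l + n := ⟨i - n, by omega⟩
      rw [hl, h.perp] at hu
      rw [hl, Nat.add_mod_right, Nat.mod_eq_of_lt (by omega)]
      exact umbilic_map' hg hu
  rcases hjk with h1 | h1
  · have h2 := hum (j % n + 1) (by omega) k1
    rwa [Nat.mod_add_mod, h1] at h2
  · have h2 := hum (j % n + 2) (by omega) k2
    rwa [Nat.mod_add_mod, h1] at h2

end

section
variable {d : ℕ}

open Pool.Agent.TH746.OB in
/-- **The main theorem.** -/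
theorem perCop_null (hd : 3 ≤ d) (Ω : Set (EuclideanSpace ℝ (Fin d)))
    (Γ : Set (EuclideanSpace ℝ (Fin d) ≃ᵃⁱ[ℝ] EuclideanSpace ℝ (Fin d)))
    (hΓ : Γ.Countable) (hinv : ∀ g ∈ Γ, g ⁻¹' Ω = Ω) :
    μH[((2 * d - 2 : ℕ) : ℝ)] (PerCop Γ Ω) = 0 := by
  have hfin : Module.finrank ℝ (EuclideanSpace ℝ (Fin d)) = d := finrank_euclideanSpace_fin
  refine measure_mono_null (t := PerOne Γ Ω ∪ ⋃ g ∈ Γ, ⋃ n : ℕ, ⋃ m : ℕ, ⋃ (_ : 2 ≤ n ∧ m ≤ n),
    {z : EuclideanSpace ℝ (Fin d) × EuclideanSpace ℝ (Fin d) |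
      (g z.1, g.linearIsometryEquiv z.2) ∈ Pb Ω g n m}) ?_ ?_
  · rintro z ⟨g, hgΓ, n, p, u, h, rfl, hs, hcard⟩
    have hg := hinv g hgΓ
    have hpos := h.pos
    have hsub : ∀ {S : Set ℕ}, S ⊆ {k | k < n} → S.Finite := fun hS =>
      (Set.finite_Iio n).subset hS
    rcases Nat.lt_or_ge n 2 with hn | hn
    · left
      obtain rfl : n = 1 := by omega
      refine ⟨g, hgΓ, 1, p, u, h, rfl, hs, ?_⟩
      refine (Set.ncard_le_ncard (t := {0}) ?_ (Set.finite_singleton 0)).trans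
        (by rw [Set.ncard_singleton])
      rintro k ⟨hk, -⟩
      rw [mem_singleton_iff]
      omega
    by_cases hcon : ∀ m ≤ n, (g (p 0), g.linearIsometryEquiv (u 0)) ∉ Pb Ω g n m
    · left
      refine ⟨g, hgΓ, n, p, u, h, rfl, hs, ?_⟩
      refine (Set.ncard_le_ncard ?_ (hsub fun k hk => hk.1)).trans hcard
      rintro k ⟨hk, hr⟩
      have hu : ¬ Umbilic Ω (p k) := fun hu => hr ⟨hs k, fun h2 => absurd h2 (by omega),
        fun _ => hu⟩
      exact ⟨hk, hu, fun hc => hu (orbit_alt hg hn h hcon hk hc)⟩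
    · right
      push Not at hcon
      obtain ⟨m, hm, hmem⟩ := hcon
      exact mem_iUnion₂.2 ⟨g, hgΓ, mem_iUnion.2 ⟨n, mem_iUnion.2 ⟨m, mem_iUnion.2 ⟨⟨hn, hm⟩,
        hmem⟩⟩⟩⟩
  · refine measure_union_null (perOne_null (by omega) Ω Γ hΓ hinv) ?_
    refine (measure_biUnion_null_iff hΓ).2 fun g hg => measure_iUnion_null fun n =>
      measure_iUnion_null fun m => measure_iUnion_null fun hnm => ?_
    refine pull g (2 * d - 2) (Pb Ω g n m) ?_
    have h1 := pb_small (by rw [hfin]; exact hd) (hinv g hg) hnm.1 hnm.2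
    rw [hfin] at h1
    have hlt : dimH (Pb Ω g n m) < (((2 * d - 2 : ℕ) : NNReal) : ENNReal) := by
      refine lt_of_le_of_lt h1 ?_
      have : 2 * d - 3 < 2 * d - 2 := by omega
      exact_mod_cast this
    exact_mod_cast hausdorffMeasure_of_dimH_lt hlt

end

end Pool.Agent.T2H44.PL
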